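import Mathlib
import Pool.Agent.L7h19.IS.Stm
import Pool.Agent.H474R2.GE.FA

/-!
# Project IS (helper19, MP_157626_nt): `S_TK`

The inequality of Turan and Kubilius for the number of prime factors of the values of an irreducible
polynomial in short intervals (helper60).
-/

set_option autoImplicit false

namespace Pool.Agent.L7h60.IS

open Finset Polynomial Pool.Agent.L7h19.IS
open Pool.Agent.H474R2.PG (rho PR Sg)

/-- the number of elements of a class in an interval -/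
lemma cnt1 (m : ℕ) (hm : 0 < m) (a u v : ℤ) (huv : u ≤ v) :
    |(((Icc u v).filter (fun t : ℤ => t ≡ a [ZMOD (m : ℤ)])).card : ℝ) -
      ((v : ℝ) - u + 1) / m| ≤ 1 := by
  have hm' : (0 : ℤ) < (m : ℤ) := by exact_mod_cast hm
  have hmR : (0 : ℝ) < (m : ℝ) := by exact_mod_cast hm
  have h1 : Icc u v = Ioc (u - 1) v := by
    ext t
    rw [mem_Icc, mem_Ioc]
    omega
  have h2 := Int.Ioc_filter_modEq_card (u - 1) v hm' a
  rw [h1]
  have h3 : ⌊(((u - 1 : ℤ) - a : ℤ) : ℚ) / ((m : ℤ) : ℚ)⌋ ≤ ⌊((v - a : ℤ) : ℚ) / ((m : ℤ) : ℚ)⌋ := by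
    apply Int.floor_le_floor
    have : (0 : ℚ) < ((m : ℤ) : ℚ) := by exact_mod_cast hm'
    apply div_le_div_of_nonneg_right _ this.le
    exact_mod_cast (by omega : (u - 1 : ℤ) - a ≤ v - a)
  have h4 : (((Ioc (u - 1) v).filter (fun t : ℤ => t ≡ a [ZMOD (m : ℤ)])).card : ℤ) =
      ⌊((v - a : ℤ) : ℚ) / ((m : ℤ) : ℚ)⌋ - ⌊(((u - 1 : ℤ) - a : ℤ) : ℚ) / ((m : ℤ) : ℚ)⌋ := by
    rw [max_eq_left] at h2
    · push_cast at h2 ⊢
      exact h2
    · push_cast at h3 ⊢
      linarith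
  set A := ⌊((v - a : ℤ) : ℚ) / ((m : ℤ) : ℚ)⌋ with hA
  set B := ⌊(((u - 1 : ℤ) - a : ℤ) : ℚ) / ((m : ℤ) : ℚ)⌋ with hB
  have hA1 : (A : ℝ) ≤ ((v : ℝ) - a) / m := by
    have := Int.floor_le (((v - a : ℤ) : ℚ) / ((m : ℤ) : ℚ))
    rw [← hA] at this
    have h5 : (((A : ℚ)) : ℝ) ≤ ((((v - a : ℤ) : ℚ) / ((m : ℤ) : ℚ) : ℚ) : ℝ) := by exact_mod_cast this
    push_cast at h5
    exact h5
  have hA2 : ((v : ℝ) - a) / m < (A : ℝ) + 1 := by
    have := Int.lt_floor_add_one (((v - a : ℤ) : ℚ) / ((m : ℤ) : ℚ))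
    rw [← hA] at this
    have h5 : ((((v - a : ℤ) : ℚ) / ((m : ℤ) : ℚ) : ℚ) : ℝ) < (((A : ℚ) + 1 : ℚ) : ℝ) := by
      exact_mod_cast this
    push_cast at h5
    exact h5
  have hB1 : (B : ℝ) ≤ ((u : ℝ) - 1 - a) / m := by
    have := Int.floor_le ((((u - 1 : ℤ) - a : ℤ) : ℚ) / ((m : ℤ) : ℚ))
    rw [← hB] at this
    have h5 : (((B : ℚ)) : ℝ) ≤ (((((u - 1 : ℤ) - a : ℤ) : ℚ) / ((m : ℤ) : ℚ) : ℚ) : ℝ) := by
      exact_mod_cast this
    push_cast at h5
    exact h5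
  have hB2 : ((u : ℝ) - 1 - a) / m < (B : ℝ) + 1 := by
    have := Int.lt_floor_add_one ((((u - 1 : ℤ) - a : ℤ) : ℚ) / ((m : ℤ) : ℚ))
    rw [← hB] at this
    have h5 : (((((u - 1 : ℤ) - a : ℤ) : ℚ) / ((m : ℤ) : ℚ) : ℚ) : ℝ) < (((B : ℚ) + 1 : ℚ) : ℝ) := by
      exact_mod_cast this
    push_cast at h5
    exact h5
  have h6 : (((Ioc (u - 1) v).filter (fun t : ℤ => t ≡ a [ZMOD (m : ℤ)])).card : ℝ) =
      (A : ℝ) - B := by
    exact_mod_cast h4
  rw [h6]
  have h7 : ((v : ℝ) - u + 1) / m = ((v : ℝ) - a) / m - ((u : ℝ) - 1 - a) / m := by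
    field_simp
    ring
  rw [h7, abs_le]
  constructor <;> linarith

/-- the values divisible by `p` -/
noncomputable def Zp (f : ℤ[X]) (u v : ℤ) (p : ℕ) : Finset ℤ :=
  (Icc u v).filter (fun t : ℤ => (p : ℤ) ∣ f.eval t)

lemma dvd_eval_iff (f : ℤ[X]) (p : ℕ) {t s : ℤ} (h : t ≡ s [ZMOD (p : ℤ)]) :
    (p : ℤ) ∣ f.eval t ↔ (p : ℤ) ∣ f.eval s := by
  have h1 : (t - s) ∣ f.eval t - f.eval s := f.sub_dvd_eval_sub t s
  have h2 : (p : ℤ) ∣ f.eval t - f.eval s := (Int.modEq_iff_dvd.1 h.symm).trans h1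
  exact (dvd_iff_dvd_of_dvd_sub h2)

/-- the residue of `t` modulo `p` -/
def rs (p : ℕ) (t : ℤ) : ℕ := (t % (p : ℤ)).toNat

lemma rs_modEq {p : ℕ} (hp : 0 < p) (t : ℤ) : ((rs p t : ℕ) : ℤ) ≡ t [ZMOD (p : ℤ)] := by
  unfold rs
  rw [Int.toNat_of_nonneg (Int.emod_nonneg _ (by omega))]
  exact Int.mod_modEq _ _

lemma rs_lt {p : ℕ} (hp : 0 < p) (t : ℤ) : rs p t < p := by
  unfold rs
  have h1 := Int.emod_lt_of_pos t (by exact_mod_cast hp : (0 : ℤ) < (p : ℤ))
  have h2 := Int.emod_nonneg t (by omega : (p : ℤ) ≠ 0)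
  omega

lemma rs_eq_iff {p : ℕ} (hp : 0 < p) (t : ℤ) {a : ℕ} (ha : a < p) :
    rs p t = a ↔ t ≡ (a : ℤ) [ZMOD (p : ℤ)] := by
  constructor
  · intro h
    have := rs_modEq hp t
    rw [h] at this
    exact this.symm
  · intro h
    have h1 : ((rs p t : ℕ) : ℤ) ≡ (a : ℤ) [ZMOD (p : ℤ)] := (rs_modEq hp t).trans h
    have h2 := (Int.natCast_modEq_iff).1 h1
    exact Nat.ModEq.eq_of_lt_of_lt h2 (rs_lt hp t) ha

/-- the number of values divisible by `p` -/
lemma cntp (f : ℤ[X]) (p : ℕ) (hp : 0 < p) (u v : ℤ) (huv : u ≤ v) :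
    |((Zp f u v p).card : ℝ) - (rho f p : ℝ) * (((v : ℝ) - u + 1) / p)| ≤ rho f p := by
  classical
  set R := (range p).filter (fun a : ℕ => (p : ℤ) ∣ f.eval (a : ℤ)) with hR
  have hmaps : ∀ t ∈ Zp f u v p, rs p t ∈ R := by
    intro t ht
    rw [Zp, mem_filter] at ht
    rw [hR, mem_filter, mem_range]
    exact ⟨rs_lt hp t, (dvd_eval_iff f p (rs_modEq hp t)).2 ht.2⟩
  have h1 : (Zp f u v p).card = ∑ a ∈ R, ((Zp f u v p).filter (fun t => rs p t = a)).card :=
    card_eq_sum_card_fiberwise hmaps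
  have h2 : ∀ a ∈ R, (Zp f u v p).filter (fun t => rs p t = a) =
      (Icc u v).filter (fun t : ℤ => t ≡ (a : ℤ) [ZMOD (p : ℤ)]) := by
    intro a ha
    rw [hR, mem_filter, mem_range] at ha
    ext t
    rw [Zp, mem_filter, mem_filter, mem_filter]
    constructor
    · rintro ⟨⟨h3, h4⟩, h5⟩
      exact ⟨h3, (rs_eq_iff hp t ha.1).1 h5⟩
    · rintro ⟨h3, h4⟩
      exact ⟨⟨h3, (dvd_eval_iff f p h4).2 ha.2⟩, (rs_eq_iff hp t ha.1).2 h4⟩
  have h3 : (rho f p : ℝ) = ∑ a ∈ R, (1 : ℝ) := by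
    rw [sum_const, nsmul_eq_mul, mul_one]
    rfl
  rw [h1, sum_congr rfl (fun a ha => by rw [h2 a ha])]
  push_cast
  rw [h3, sum_mul, ← sum_sub_distrib]
  refine (abs_sum_le_sum_abs _ _).trans (sum_le_sum fun a ha => ?_)
  rw [one_mul]
  exact cnt1 p hp a u v huv

/-- the number of values divisible by two different primes -/
lemma cntpq (f : ℤ[X]) (p q : ℕ) (hp : p.Prime) (hq : q.Prime) (hpq : p ≠ q) (u v : ℤ)
    (huv : u ≤ v) :
    ((Zp f u v p ∩ Zp f u v q).card : ℝ) ≤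
      (rho f p : ℝ) * (rho f q : ℝ) * (((v : ℝ) - u + 1) / (p * q) + 1) := by
  classical
  set R := (range p).filter (fun a : ℕ => (p : ℤ) ∣ f.eval (a : ℤ)) with hR
  set Q := (range q).filter (fun a : ℕ => (q : ℤ) ∣ f.eval (a : ℤ)) with hQ
  have hmaps : ∀ t ∈ Zp f u v p ∩ Zp f u v q, (rs p t, rs q t) ∈ R ×ˢ Q := by
    intro t ht
    rw [mem_inter, Zp, Zp, mem_filter, mem_filter] at ht
    rw [mem_product, hR, hQ, mem_filter, mem_range, mem_filter, mem_range]
    exact ⟨⟨rs_lt hp.pos t, (dvd_eval_iff f p (rs_modEq hp.pos t)).2 ht.1.2⟩,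
      ⟨rs_lt hq.pos t, (dvd_eval_iff f q (rs_modEq hq.pos t)).2 ht.2.2⟩⟩
  have h1 : (Zp f u v p ∩ Zp f u v q).card =
      ∑ a ∈ R ×ˢ Q, ((Zp f u v p ∩ Zp f u v q).filter (fun t => (rs p t, rs q t) = a)).card :=
    card_eq_sum_card_fiberwise hmaps
  have hN : (0 : ℝ) ≤ ((v : ℝ) - u + 1) := by
    have : (u : ℝ) ≤ v := by exact_mod_cast huv
    linarith
  have hc : IsCoprime (p : ℤ) (q : ℤ) :=
    Nat.isCoprime_iff_coprime.2 ((Nat.coprime_primes hp hq).2 hpq)
  have h2 : ∀ a ∈ R ×ˢ Q,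
      (((Zp f u v p ∩ Zp f u v q).filter (fun t => (rs p t, rs q t) = a)).card : ℝ) ≤
        ((v : ℝ) - u + 1) / (p * q) + 1 := by
    intro a ha
    rw [mem_product, hR, hQ, mem_filter, mem_range, mem_filter, mem_range] at ha
    rcases ((Zp f u v p ∩ Zp f u v q).filter (fun t => (rs p t, rs q t) = a)).eq_empty_or_nonempty
      with h0 | ⟨t₀, ht₀⟩
    · rw [h0, card_empty]
      push_cast
      positivity
    · rw [mem_filter, Prod.ext_iff] at ht₀
      have hsub : (Zp f u v p ∩ Zp f u v q).filter (fun t => (rs p t, rs q t) = a) ⊆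
          (Icc u v).filter (fun t : ℤ => t ≡ t₀ [ZMOD ((p * q : ℕ) : ℤ)]) := by
        intro t ht
        rw [mem_filter, mem_inter, Zp, Zp, mem_filter, mem_filter, Prod.ext_iff] at ht
        rw [mem_filter]
        refine ⟨ht.1.1.1, ?_⟩
        have h3 : t ≡ t₀ [ZMOD (p : ℤ)] :=
          ((rs_eq_iff hp.pos t ha.1.1).1 ht.2.1).trans ((rs_eq_iff hp.pos t₀ ha.1.1).1 ht₀.2.1).symm
        have h4 : t ≡ t₀ [ZMOD (q : ℤ)] :=
          ((rs_eq_iff hq.pos t ha.2.1).1 ht.2.2).trans ((rs_eq_iff hq.pos t₀ ha.2.1).1 ht₀.2.2).symm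
        push_cast
        rw [Int.modEq_iff_dvd] at h3 h4 ⊢
        exact hc.mul_dvd h3 h4
      have h5 := cnt1 (p * q) (Nat.mul_pos hp.pos hq.pos) t₀ u v huv
      have h6 : (((Zp f u v p ∩ Zp f u v q).filter (fun t => (rs p t, rs q t) = a)).card : ℝ) ≤
          (((Icc u v).filter (fun t : ℤ => t ≡ t₀ [ZMOD ((p * q : ℕ) : ℤ)])).card : ℝ) := by
        exact_mod_cast card_le_card hsub
      have h7 := (abs_le.1 h5).2
      push_cast at h7
      push_cast at h6
      linarith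
  rw [h1]
  push_cast
  refine (sum_le_sum h2).trans ?_
  rw [sum_const, card_product, nsmul_eq_mul]
  push_cast
  exact le_rfl

/-- the number of the prime factors `≤ w` of `f(t)` -/
noncomputable def Aw (f : ℤ[X]) (w : ℝ) (t : ℤ) : ℝ :=
  ∑ p ∈ PR w, if (p : ℤ) ∣ f.eval t then (1 : ℝ) else 0

/-- the second moment -/
lemma second (f : ℤ[X]) (w : ℝ) (u v : ℤ) (huv : u ≤ v) :
    ∑ t ∈ Icc u v, (Aw f w t - Sg (rho f) w) ^ 2 ≤
      ((v : ℝ) - u + 1) * Sg (rho f) w + (∑ p ∈ PR w, (rho f p : ℝ)) +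
        (∑ p ∈ PR w, (rho f p : ℝ)) ^ 2 + 2 * Sg (rho f) w * ∑ p ∈ PR w, (rho f p : ℝ) := by
  classical
  set M := Sg (rho f) w with hM
  set R := ∑ p ∈ PR w, (rho f p : ℝ) with hR
  set N : ℝ := (v : ℝ) - u + 1 with hN
  have hN0 : 0 ≤ N := by
    have : (u : ℝ) ≤ v := by exact_mod_cast huv
    rw [hN]
    linarith
  have hM0 : 0 ≤ M := by
    rw [hM]
    unfold Sg
    exact sum_nonneg fun p _ => by positivity
  have hcardN : ((Icc u v).card : ℝ) = N := by
    rw [Int.card_Icc]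
    have : (((v + 1 - u).toNat : ℕ) : ℤ) = v + 1 - u := Int.toNat_of_nonneg (by omega)
    have h2 : (((v + 1 - u).toNat : ℕ) : ℝ) = (((v + 1 - u : ℤ)) : ℝ) := by exact_mod_cast this
    rw [h2, hN]
    push_cast
    ring
  have hprime : ∀ p ∈ PR w, p.Prime := fun p hp => (mem_filter.1 hp).2
  -- first moment
  have hS1 : ∑ t ∈ Icc u v, Aw f w t = ∑ p ∈ PR w, ((Zp f u v p).card : ℝ) := by
    unfold Aw
    rw [sum_comm]
    refine sum_congr rfl fun p _ => ?_
    rw [Zp, ← sum_filter, sum_const, nsmul_eq_mul, mul_one]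
  have hS1l : N * M - R ≤ ∑ t ∈ Icc u v, Aw f w t := by
    rw [hS1, hM, Sg, hR, mul_sum, ← sum_sub_distrib]
    refine sum_le_sum fun p hp => ?_
    have h1 := (abs_le.1 (cntp f p (hprime p hp).pos u v huv)).1
    rw [← hN] at h1
    have h2 : N * ((rho f p : ℝ) / p) = (rho f p : ℝ) * (N / p) := by ring
    rw [h2]
    linarith
  have hS2 : ∑ t ∈ Icc u v, Aw f w t ^ 2 =
      ∑ p ∈ PR w, ∑ q ∈ PR w, ((Zp f u v p ∩ Zp f u v q).card : ℝ) := by
    have h1 : ∀ t, Aw f w t ^ 2 = ∑ p ∈ PR w, ∑ q ∈ PR w,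
        if t ∈ Icc u v ∧ (p : ℤ) ∣ f.eval t ∧ (q : ℤ) ∣ f.eval t then (1 : ℝ) else
          if t ∈ Icc u v then 0 else
            (if (p : ℤ) ∣ f.eval t then (1 : ℝ) else 0) * (if (q : ℤ) ∣ f.eval t then (1 : ℝ) else 0) := by
      intro t
      rw [sq]
      unfold Aw
      rw [sum_mul_sum]
      refine sum_congr rfl fun p _ => sum_congr rfl fun q _ => ?_
      by_cases h3 : t ∈ Icc u v
      · by_cases h1 : (p : ℤ) ∣ f.eval t
        · by_cases h2 : (q : ℤ) ∣ f.eval t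
          · simp [h1, h2, h3]
          · simp [h1, h2, h3]
        · simp [h1, h3]
      · simp [h3]
    rw [sum_congr rfl (fun t _ => h1 t), sum_comm]
    refine sum_congr rfl fun p _ => ?_
    rw [sum_comm]
    refine sum_congr rfl fun q _ => ?_
    have h2 : Zp f u v p ∩ Zp f u v q =
        (Icc u v).filter (fun t : ℤ => (p : ℤ) ∣ f.eval t ∧ (q : ℤ) ∣ f.eval t) := by
      ext t
      rw [mem_inter, Zp, Zp, mem_filter, mem_filter, mem_filter]
      tauto
    rw [h2, card_eq_sum_ones, Nat.cast_sum, sum_filter]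
    refine sum_congr rfl fun t ht => ?_
    by_cases h3 : (p : ℤ) ∣ f.eval t ∧ (q : ℤ) ∣ f.eval t
    · simp [h3, ht]
    · rw [if_neg (fun h => h3 h.2), if_pos ht, if_neg h3]
  have hS2u : ∑ t ∈ Icc u v, Aw f w t ^ 2 ≤ N * M ^ 2 + R ^ 2 + N * M + R := by
    rw [hS2]
    have h1 : ∀ p ∈ PR w, ∀ q ∈ PR w, ((Zp f u v p ∩ Zp f u v q).card : ℝ) ≤
        (rho f p : ℝ) * (rho f q : ℝ) * (N / (p * q) + 1) +
          if p = q then (rho f p : ℝ) * (N / p) + rho f p else 0 := by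
      intro p hp q hq
      by_cases hpq : p = q
      · subst hpq
        rw [if_pos rfl, inter_self]
        have h2 := (abs_le.1 (cntp f p (hprime p hp).pos u v huv)).2
        rw [← hN] at h2
        have h3 : 0 ≤ (rho f p : ℝ) * (rho f p : ℝ) * (N / (p * p) + 1) := by positivity
        linarith
      · rw [if_neg hpq, add_zero]
        exact cntpq f p q (hprime p hp) (hprime q hq) hpq u v huv
    refine (sum_le_sum fun p hp => sum_le_sum fun q hq => h1 p hp q hq).trans ?_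
    have h2 : ∑ p ∈ PR w, ∑ q ∈ PR w, ((rho f p : ℝ) * (rho f q : ℝ) * (N / (p * q) + 1) +
          if p = q then (rho f p : ℝ) * (N / p) + rho f p else 0) =
        N * M ^ 2 + R ^ 2 + (N * M + R) := by
      simp only [sum_add_distrib]
      have h3 : ∑ p ∈ PR w, ∑ q ∈ PR w, (rho f p : ℝ) * (rho f q : ℝ) * (N / (p * q) + 1) =
          N * M ^ 2 + R ^ 2 := by
        rw [hM, hR, Sg, sq, sq, sum_mul_sum, sum_mul_sum, mul_sum, ← sum_add_distrib]
        refine sum_congr rfl fun p _ => ?_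
        rw [mul_sum, ← sum_add_distrib]
        refine sum_congr rfl fun q _ => ?_
        rw [mul_add, mul_one]
        congr 1
        rw [div_mul_div_comm]
        ring
      have h4 : ∑ p ∈ PR w, ∑ q ∈ PR w,
          (if p = q then (rho f p : ℝ) * (N / p) + rho f p else 0) = N * M + R := by
        have h5 : ∀ p ∈ PR w, ∑ q ∈ PR w,
            (if p = q then (rho f p : ℝ) * (N / p) + rho f p else 0) =
              (rho f p : ℝ) * (N / p) + rho f p := by
          intro p hp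
          rw [sum_ite_eq, if_pos hp]
        rw [sum_congr rfl h5, sum_add_distrib, hM, Sg, mul_sum, hR]
        congr 1
        refine sum_congr rfl fun p _ => ?_
        ring
      rw [h3, h4]
    rw [h2]
    linarith
  have hexp : ∑ t ∈ Icc u v, (Aw f w t - M) ^ 2 =
      ∑ t ∈ Icc u v, Aw f w t ^ 2 - 2 * M * ∑ t ∈ Icc u v, Aw f w t + N * M ^ 2 := by
    have h1 : ∀ t ∈ Icc u v, (Aw f w t - M) ^ 2 = Aw f w t ^ 2 - 2 * M * Aw f w t + M ^ 2 :=
      fun t _ => by ring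
    rw [sum_congr rfl h1, sum_add_distrib, sum_sub_distrib, ← mul_sum, sum_const, nsmul_eq_mul,
      hcardN]
  rw [hexp]
  have h8 : 2 * M * (N * M - R) ≤ 2 * M * ∑ t ∈ Icc u v, Aw f w t :=
    mul_le_mul_of_nonneg_left hS1l (by positivity)
  nlinarith

/-- the values of a polynomial grow polynomially -/
lemma eval_bound (f : ℤ[X]) : ∃ K : ℝ, 1 ≤ K ∧ ∀ (X : ℕ) (t : ℤ), 1 ≤ X → t.natAbs ≤ X →
    (((f.eval t).natAbs : ℕ) : ℝ) ≤ K * (X : ℝ) ^ f.natDegree := by
  refine ⟨1 + ∑ i ∈ range (f.natDegree + 1), |(f.coeff i : ℝ)|, ?_, fun X t hX ht => ?_⟩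
  · have : (0 : ℝ) ≤ ∑ i ∈ range (f.natDegree + 1), |(f.coeff i : ℝ)| :=
      sum_nonneg fun i _ => abs_nonneg _
    linarith
  · have h1 : (((f.eval t).natAbs : ℕ) : ℝ) = |((f.eval t : ℤ) : ℝ)| := by
      rw [Nat.cast_natAbs, Int.cast_abs]
    have hX1 : (1 : ℝ) ≤ X := by exact_mod_cast hX
    have htX : |(t : ℝ)| ≤ X := by
      have : (|t| : ℤ) ≤ X := by
        rw [Int.abs_eq_natAbs]
        exact_mod_cast ht
      exact_mod_cast this
    rw [h1, eval_eq_sum_range]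
    push_cast
    refine (abs_sum_le_sum_abs _ _).trans ?_
    rw [add_mul, sum_mul]
    have h2 : ∑ i ∈ range (f.natDegree + 1), |(f.coeff i : ℝ) * (t : ℝ) ^ i| ≤
        ∑ i ∈ range (f.natDegree + 1), |(f.coeff i : ℝ)| * (X : ℝ) ^ f.natDegree := by
      refine sum_le_sum fun i hi => ?_
      rw [abs_mul, abs_pow]
      refine mul_le_mul_of_nonneg_left ?_ (abs_nonneg _)
      refine (pow_le_pow_left₀ (abs_nonneg _) htX i).trans ?_
      exact pow_le_pow_right₀ hX1 (by rw [mem_range] at hi; omega)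
    have h3 : (0 : ℝ) ≤ 1 * (X : ℝ) ^ f.natDegree := by positivity
    linarith

/-- the large prime factors -/
lemma om_sub (f : ℤ[X]) (w : ℝ) (hw : 1 ≤ w) (t : ℤ) (ht : f.eval t ≠ 0) :
    Aw f w t ≤ (om (f.eval t) : ℝ) ∧
      ((om (f.eval t) : ℝ) - Aw f w t) * Real.log w ≤ Real.log ((f.eval t).natAbs : ℝ) := by
  classical
  set n := (f.eval t).natAbs with hn
  have hn0 : n ≠ 0 := Int.natAbs_ne_zero.2 ht
  have hA : Aw f w t = ((n.primeFactors.filter (fun p : ℕ => (p : ℝ) ≤ w)).card : ℝ) := by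
    unfold Aw
    rw [← sum_filter, sum_const, nsmul_eq_mul, mul_one]
    congr 2
    ext p
    rw [mem_filter, PR, mem_filter, mem_Icc, mem_filter, Nat.mem_primeFactors]
    constructor
    · rintro ⟨⟨⟨h1, h2⟩, h3⟩, h4⟩
      exact ⟨⟨h3, Int.natCast_dvd.1 h4, hn0⟩, (Nat.le_floor_iff (by linarith)).1 h2⟩
    · rintro ⟨⟨h1, h2, -⟩, h3⟩
      exact ⟨⟨⟨h1.one_lt.le, (Nat.le_floor_iff (by linarith)).2 h3⟩, h1⟩, Int.natCast_dvd.2 h2⟩
  have hom : (om (f.eval t) : ℝ) = Aw f w t +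
      ((n.primeFactors.filter (fun p : ℕ => ¬ (p : ℝ) ≤ w)).card : ℝ) := by
    rw [hA]
    unfold om
    rw [← hn]
    exact_mod_cast (card_filter_add_card_filter_not (s := n.primeFactors)
      (fun p : ℕ => (p : ℝ) ≤ w)).symm
  refine ⟨?_, ?_⟩
  · rw [hom]
    linarith [Nat.cast_nonneg (α := ℝ) ((n.primeFactors.filter (fun p : ℕ => ¬ (p : ℝ) ≤ w)).card)]
  · rw [hom, add_sub_cancel_left, ← Real.log_pow]
    apply Real.log_le_log (by positivity)
    have h1 : w ^ (n.primeFactors.filter (fun p : ℕ => ¬ (p : ℝ) ≤ w)).card ≤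
        ∏ p ∈ n.primeFactors.filter (fun p : ℕ => ¬ (p : ℝ) ≤ w), (p : ℝ) := by
      rw [← prod_const]
      refine prod_le_prod (fun p _ => by linarith) fun p hp => ?_
      exact (not_le.1 (mem_filter.1 hp).2).le
    refine h1.trans ?_
    have h2 : ∏ p ∈ n.primeFactors.filter (fun p : ℕ => ¬ (p : ℝ) ≤ w), p ∣ n :=
      (prod_dvd_prod_of_subset _ _ _ (filter_subset _ _)).trans (Nat.prod_primeFactors_dvd n)
    rw [← Nat.cast_prod]
    exact Nat.cast_le.2 (Nat.le_of_dvd (Nat.pos_of_ne_zero hn0) h2)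

/-- the last step of `s_TK` -/
lemma last_step {C3 C45 l3 l L T : ℝ} (h45 : 0 ≤ C45) (hl3 : 0 < l3) (hll : l3 ≤ l)
    (hL : 1 ≤ L) (hT : T ≤ √(2 * C3) * (L * √l)) :
    T + (L + 1) * C45 ≤ (√(2 * C3) + 2 * C45 / √l3) * L * √l := by
  have h1 : 0 < √l3 := Real.sqrt_pos.2 hl3
  have h2 : √l3 ≤ √l := Real.sqrt_le_sqrt hll
  have h3 : 2 * C45 ≤ 2 * C45 / √l3 * √l := by
    rw [div_mul_eq_mul_div, le_div_iff₀ h1]
    exact mul_le_mul_of_nonneg_left h2 (by positivity)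
  have h4 : L * (2 * C45) ≤ L * (2 * C45 / √l3 * √l) := mul_le_mul_of_nonneg_left h3 (by linarith)
  have h5 : (L + 1) * C45 ≤ L * (2 * C45) := by nlinarith
  have h6 : (√(2 * C3) + 2 * C45 / √l3) * L * √l =
      √(2 * C3) * (L * √l) + L * (2 * C45 / √l3 * √l) := by ring
  rw [h6]
  linarith

/-- the second moment, explicitly -/
lemma second_step {k C0 C1 L w M R l V : ℝ} (hk : 1 ≤ k) (hC0 : 0 ≤ C0)
    (hL : 1 ≤ L) (hw3 : 3 ≤ w) (hw2 : w ^ 2 = 9 * L) (hM0 : 0 ≤ M) (hMl : M ≤ l + (C1 + C0))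
    (hMw : M ≤ w + C0) (hR0 : 0 ≤ R) (hRw : R ≤ k * w)
    (hsec : V ≤ (L + 1) * M + R + R ^ 2 + 2 * M * R) :
    V ≤ L * (2 * l + (2 * (C1 + C0) + 9 * k + 9 * k ^ 2 + 18 * k * (1 + C0))) := by
  have h1 : (L + 1) * M ≤ 2 * L * (l + (C1 + C0)) := by
    calc (L + 1) * M ≤ (2 * L) * M := mul_le_mul_of_nonneg_right (by linarith) hM0
      _ ≤ _ := mul_le_mul_of_nonneg_left hMl (by linarith)
  have hww : w ≤ w ^ 2 := by nlinarith
  have h3 : R ≤ k * (9 * L) := by
    rw [← hw2]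
    exact hRw.trans (mul_le_mul_of_nonneg_left hww (by linarith))
  have h4 : R ^ 2 ≤ k ^ 2 * (9 * L) := by
    rw [← hw2, ← mul_pow]
    exact pow_le_pow_left₀ hR0 hRw 2
  have h6 : 2 * M * R ≤ 2 * ((1 + C0) * w) * (k * w) := by
    have h7 : M ≤ (1 + C0) * w := by nlinarith
    have h8 : M * R ≤ ((1 + C0) * w) * (k * w) :=
      mul_le_mul h7 hRw hR0 (by nlinarith)
    linarith
  have h9 : 2 * ((1 + C0) * w) * (k * w) = 2 * k * (1 + C0) * (9 * L) := by
    rw [← hw2]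
    ring
  rw [h9] at h6
  have h10 : L * (2 * l + (2 * (C1 + C0) + 9 * k + 9 * k ^ 2 + 18 * k * (1 + C0))) =
      2 * L * (l + (C1 + C0)) + k * (9 * L) + k ^ 2 * (9 * L) + 2 * k * (1 + C0) * (9 * L) := by
    ring
  rw [h10]
  linarith

/-- the inequality of Cauchy and Schwarz for the first moment -/
lemma cs_step (A : ℤ → ℝ) (u v : ℤ) {L V C3 l M : ℝ} (hL : 1 ≤ L) (hl : 0 ≤ l) (hC3 : 0 ≤ C3)
    (hcard : ((Icc u v).card : ℝ) = L + 1) (hV : V = ∑ t ∈ Icc u v, (A t - M) ^ 2)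
    (hVle : V ≤ C3 * (L * l)) :
    ∑ t ∈ Icc u v, |A t - M| ≤ √(2 * C3) * (L * √l) := by
  have h1 : (∑ t ∈ Icc u v, |A t - M|) ^ 2 ≤ (L + 1) * V := by
    have h2 := sum_mul_sq_le_sq_mul_sq (Icc u v) (fun _ => (1 : ℝ)) (fun t => |A t - M|)
    simp only [one_mul, one_pow, sum_const, nsmul_eq_mul, mul_one, sq_abs] at h2
    rw [hcard] at h2
    rw [hV]
    exact h2
  have hV0 : 0 ≤ V := by
    rw [hV]
    exact sum_nonneg fun t _ => sq_nonneg _
  have h3 : (∑ t ∈ Icc u v, |A t - M|) ^ 2 ≤ (√(2 * C3) * (L * √l)) ^ 2 := by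
    rw [mul_pow, mul_pow, Real.sq_sqrt (by positivity), Real.sq_sqrt hl]
    calc (∑ t ∈ Icc u v, |A t - M|) ^ 2 ≤ (L + 1) * V := h1
      _ ≤ (2 * L) * (C3 * (L * l)) := mul_le_mul (by linarith) hVle hV0 (by linarith)
      _ = 2 * C3 * (L ^ 2 * l) := by ring
  exact (pow_le_pow_iff_left₀ (sum_nonneg fun t _ => abs_nonneg _) (by positivity)
    two_ne_zero).1 h3

set_option maxHeartbeats 1000000 in
/-- **S_TK** -/
theorem s_TK : S_TK := by
  classical
  intro f ε hf hd hε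
  have hf0 : f ≠ 0 := hf.ne_zero
  obtain ⟨C0, hC00, hC0⟩ := Pool.Agent.H474R2.GE.mertens_rho f hf hd
  obtain ⟨B, hB⟩ := Pool.Agent.H474R2.PG.rho_le f hf0
  obtain ⟨K, hK1, hK⟩ := eval_bound f
  set D := f.natDegree with hD
  -- the constants
  set k : ℝ := (D : ℝ) + B + 1 with hk
  set C1 : ℝ := Real.log 2 + |Real.log (ε / 2)| with hC1
  set l3 : ℝ := Real.log (Real.log 3) with hl3
  have hlog3 : 1 < Real.log 3 := by
    rw [Real.lt_log_iff_exp_lt (by norm_num)]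
    have := Real.exp_one_lt_d9
    linarith
  have hl30 : 0 < l3 := Real.log_pos hlog3
  have hlog2 : 0 < Real.log 2 := Real.log_pos (by norm_num)
  have hC10 : 0 ≤ C1 := by positivity
  set C2 : ℝ := 2 * (C1 + C0) + 9 * k + 9 * k ^ 2 + 18 * k * (1 + C0) with hC2
  have hk1 : 1 ≤ k := by
    rw [hk]
    have : (0 : ℝ) ≤ (D : ℝ) + B := by positivity
    linarith
  have hC20 : 0 ≤ C2 := by positivity
  set C3 : ℝ := 2 + C2 / l3 with hC3
  have hC30 : 0 ≤ C3 := by positivity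
  set C4 : ℝ := C0 + C1 with hC4
  set C5 : ℝ := (Real.log K + D) / (ε / 2) with hC5
  have hlogK : 0 ≤ Real.log K := Real.log_nonneg hK1
  have hC50 : 0 ≤ C5 := by positivity
  refine ⟨√(2 * C3) + 2 * (C4 + C5) / √l3, fun X u v hX hu hv hL => ?_⟩
  have hX3 : (3 : ℝ) ≤ X := by exact_mod_cast hX
  have hlogX : 1 < Real.log X := hlog3.trans_le (Real.log_le_log (by norm_num) hX3)
  set l : ℝ := Real.log (Real.log X) with hl
  have hll : l3 ≤ l := Real.log_le_log (by linarith) (Real.log_le_log (by norm_num) hX3)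
  have hl0 : 0 < l := hl30.trans_le hll
  set L : ℝ := (v : ℝ) - u with hLdef
  have hXe : 1 ≤ (X : ℝ) ^ ε := Real.one_le_rpow (by linarith) hε.le
  have hL1 : 1 ≤ L := hXe.trans hL
  have huv : u ≤ v := by
    have : (u : ℝ) ≤ v := by linarith
    exact_mod_cast this
  have hL2 : L ≤ 2 * X := by
    have h1 : v - u ≤ 2 * (X : ℤ) := by omega
    have h2 : ((v - u : ℤ) : ℝ) ≤ ((2 * (X : ℤ) : ℤ) : ℝ) := by exact_mod_cast h1
    push_cast at h2
    exact h2
  set w : ℝ := 3 * √L with hw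
  have hsL : 1 ≤ √L := by
    rw [← Real.sqrt_one]
    exact Real.sqrt_le_sqrt hL1
  have hw3 : 3 ≤ w := by rw [hw]; linarith
  have hw2 : w ^ 2 = 9 * L := by
    rw [hw, mul_pow, Real.sq_sqrt (by linarith)]
    norm_num
  -- `log w`
  have hlw : Real.log w = Real.log 3 + Real.log L / 2 := by
    rw [hw, Real.log_mul (by norm_num) (by linarith), Real.log_sqrt (by linarith)]
  have hlL : ε * Real.log X ≤ Real.log L := by
    rw [← Real.log_rpow (by linarith)]
    exact Real.log_le_log (by linarith) hL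
  have hlL2 : Real.log L ≤ Real.log 2 + Real.log X := by
    rw [← Real.log_mul (by norm_num) (by linarith)]
    exact Real.log_le_log (by linarith) hL2
  have hlw1 : ε / 2 * Real.log X ≤ Real.log w := by
    rw [hlw]
    nlinarith
  have hlw2 : Real.log w ≤ 2 * Real.log X := by
    have h1 : Real.log 3 ≤ Real.log X := Real.log_le_log (by norm_num) hX3
    have h2 : Real.log 2 ≤ Real.log 3 := Real.log_le_log (by norm_num) (by norm_num)
    rw [hlw]
    linarith
  have hlogw : 1 < Real.log w := hlog3.trans_le (Real.log_le_log (by norm_num) hw3)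
  have hllw : |Real.log (Real.log w) - l| ≤ C1 := by
    have h1 : Real.log (Real.log w) ≤ Real.log 2 + l := by
      rw [hl, ← Real.log_mul (by norm_num) (by linarith)]
      exact Real.log_le_log (by linarith) hlw2
    have h2 : Real.log (ε / 2) + l ≤ Real.log (Real.log w) := by
      rw [hl, ← Real.log_mul (by positivity) (by linarith)]
      exact Real.log_le_log (by positivity) hlw1
    have h3 := neg_abs_le (Real.log (ε / 2))
    have h4 := abs_nonneg (Real.log (ε / 2))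
    rw [abs_le, hC1]
    constructor <;> linarith
  set M := Sg (rho f) w with hM
  have hMw : |M - Real.log (Real.log w)| ≤ C0 := hC0 w hw3
  have hMl : |M - l| ≤ C4 := by
    rw [hC4]
    have : M - l = (M - Real.log (Real.log w)) + (Real.log (Real.log w) - l) := by ring
    rw [this]
    exact (abs_add_le _ _).trans (add_le_add hMw hllw)
  have hM0 : 0 ≤ M := by
    rw [hM]
    unfold Sg
    exact sum_nonneg fun p _ => by positivity
  -- the sum of `ρ`
  set R := ∑ p ∈ PR w, (rho f p : ℝ) with hR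
  have hR0 : 0 ≤ R := sum_nonneg fun p _ => by positivity
  have hRw : R ≤ k * w := by
    have h1 : ∀ p ∈ PR w, (rho f p : ℝ) ≤ k := by
      intro p hp
      have hpp : p.Prime := (mem_filter.1 hp).2
      have h2 : rho f p ≤ D + B := by
        by_cases h : B < p
        · exact (hB p hpp h).trans (by omega)
        · have h3 : rho f p ≤ p := by
            unfold rho
            exact (card_filter_le _ _).trans (by rw [card_range])
          omega
      have h3 : (rho f p : ℝ) ≤ ((D + B : ℕ) : ℝ) := by exact_mod_cast h2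
      push_cast at h3
      rw [hk]
      linarith
    have h2 : ((PR w).card : ℝ) ≤ w := by
      have h3 : (PR w).card ≤ ⌊w⌋₊ := by
        unfold PR
        refine (card_filter_le _ _).trans ?_
        rw [Nat.card_Icc]
        omega
      calc ((PR w).card : ℝ) ≤ (⌊w⌋₊ : ℝ) := by exact_mod_cast h3
        _ ≤ w := Nat.floor_le (by linarith)
    calc R ≤ ∑ p ∈ PR w, k := sum_le_sum h1
      _ = (PR w).card * k := by rw [sum_const, nsmul_eq_mul]
      _ ≤ w * k := mul_le_mul_of_nonneg_right h2 (by linarith)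
      _ = k * w := mul_comm _ _
  have hsec := second f w u v huv
  rw [← hM, ← hR, ← hLdef] at hsec
  set V := ∑ t ∈ Icc u v, (Aw f w t - M) ^ 2 with hV
  have hMl2 : M ≤ l + (C1 + C0) := by
    have := (abs_le.1 hMl).2
    rw [hC4] at this
    linarith
  have hMw2 : M ≤ w + C0 := by
    have h6 := (abs_le.1 hMw).2
    have h7 : Real.log (Real.log w) ≤ w := by
      have h8 := Real.log_le_sub_one_of_pos (by linarith : (0 : ℝ) < Real.log w)
      have h9 := Real.log_le_sub_one_of_pos (by linarith : (0 : ℝ) < w)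
      linarith
    linarith
  have hVle : V ≤ L * (2 * l + C2) := by
    rw [hC2]
    exact second_step hk1 hC00 hL1 hw3 hw2 hM0 hMl2 hMw2 hR0 hRw hsec
  have hVle2 : V ≤ C3 * (L * l) := by
    refine hVle.trans ?_
    have h1 : C2 ≤ C2 / l3 * l := by
      rw [div_mul_eq_mul_div, le_div_iff₀ hl30]
      exact mul_le_mul_of_nonneg_left hll hC20
    have h2 : 2 * l + C2 ≤ C3 * l := by
      rw [hC3]
      linarith
    calc L * (2 * l + C2) ≤ L * (C3 * l) := mul_le_mul_of_nonneg_left h2 (by linarith)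
      _ = C3 * (L * l) := by ring
  -- Cauchy-Schwarz
  have hcard : ((Icc u v).card : ℝ) = L + 1 := by
    rw [Int.card_Icc]
    have : (((v + 1 - u).toNat : ℕ) : ℤ) = v + 1 - u := Int.toNat_of_nonneg (by omega)
    have h2 : (((v + 1 - u).toNat : ℕ) : ℝ) = (((v + 1 - u : ℤ)) : ℝ) := by exact_mod_cast this
    rw [h2, hLdef]
    push_cast
    ring
  have hCS : ∑ t ∈ Icc u v, |Aw f w t - M| ≤ √(2 * C3) * (L * √l) :=
    cs_step (Aw f w) u v hL1 hl0.le hC30 hcard hV hVle2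
  -- the remaining terms
  have hrest : ∀ t ∈ (Icc u v).filter (fun t : ℤ => f.eval t ≠ 0),
      |((om (f.eval t) : ℕ) : ℝ) - l| ≤ |Aw f w t - M| + (C4 + C5) := by
    intro t ht
    rw [mem_filter, mem_Icc] at ht
    obtain ⟨h1, h2⟩ := om_sub f w (by linarith) t ht.2
    have htX : t.natAbs ≤ X := by omega
    have h3 := hK X t (by omega) htX
    have hn0 : (0 : ℝ) < (((f.eval t).natAbs : ℕ) : ℝ) := by
      exact_mod_cast Int.natAbs_pos.2 ht.2
    have h4 : Real.log (((f.eval t).natAbs : ℕ) : ℝ) ≤ Real.log K + D * Real.log X := by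
      rw [← Real.log_pow, ← Real.log_mul (by linarith) (by positivity)]
      exact Real.log_le_log hn0 h3
    have h5 : ((om (f.eval t) : ℝ) - Aw f w t) ≤ C5 := by
      have h6 : ((om (f.eval t) : ℝ) - Aw f w t) * (ε / 2 * Real.log X) ≤
          (Real.log K + D) * Real.log X := by
        calc ((om (f.eval t) : ℝ) - Aw f w t) * (ε / 2 * Real.log X) ≤
            ((om (f.eval t) : ℝ) - Aw f w t) * Real.log w :=
              mul_le_mul_of_nonneg_left hlw1 (by linarith)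
          _ ≤ Real.log K + D * Real.log X := h2.trans h4
          _ ≤ (Real.log K + D) * Real.log X := by nlinarith
      rw [hC5, le_div_iff₀ (by positivity)]
      have h7 : ((om (f.eval t) : ℝ) - Aw f w t) * (ε / 2) * Real.log X ≤
          (Real.log K + D) * Real.log X := by linarith
      exact le_of_mul_le_mul_right h7 (by linarith)
    have h8 : ((om (f.eval t) : ℕ) : ℝ) - l =
        (Aw f w t - M) + ((M - l) + ((om (f.eval t) : ℝ) - Aw f w t)) := by ring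
    rw [h8]
    refine (abs_add_le _ _).trans (add_le_add le_rfl ((abs_add_le _ _).trans
      (add_le_add hMl ?_)))
    rw [abs_of_nonneg (by linarith)]
    exact h5
  have hC40 : 0 ≤ C4 := by positivity
  calc ∑ t ∈ (Icc u v).filter (fun t : ℤ => f.eval t ≠ 0), |((om (f.eval t) : ℕ) : ℝ) - l|
      ≤ ∑ t ∈ (Icc u v).filter (fun t : ℤ => f.eval t ≠ 0), (|Aw f w t - M| + (C4 + C5)) :=
        sum_le_sum hrest
    _ ≤ ∑ t ∈ Icc u v, (|Aw f w t - M| + (C4 + C5)) :=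
        sum_le_sum_of_subset_of_nonneg (filter_subset _ _) fun t _ _ => by positivity
    _ = ∑ t ∈ Icc u v, |Aw f w t - M| + (L + 1) * (C4 + C5) := by
        rw [sum_add_distrib, sum_const, nsmul_eq_mul, hcard]
    _ ≤ (√(2 * C3) + 2 * (C4 + C5) / √l3) * L * √l :=
        last_step (by positivity) hl30 hll hL1 hCS

end Pool.Agent.L7h60.IS
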